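import Pool.Agent.Helper20.EP.Spec2

/-!
# EP: part FROB (helper10)
-/

set_option autoImplicit false
set_option linter.all false

open Polynomial NumberField

namespace Pool.Agent.Helper10.EP.FROB

open Pool.Agent.Helper20.EP

/-- invariant algebraic integers are integers -/
theorem int_of_inv {K : Type} [Field K] [NumberField K] [IsGalois ℚ K] {a : K}
    (ha : IsIntegral ℤ a) (h : ∀ γ : K ≃ₐ[ℚ] K, γ a = a) : ∃ z : ℤ, (z : K) = a := by
  have h1 := (IsGalois.mem_bot_iff_fixed (F := ℚ) (E := K) a).2 h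
  obtain ⟨q, hq⟩ := IntermediateField.mem_bot.1 h1
  have h2 : IsIntegral ℤ q := by
    rw [← hq] at ha
    exact (isIntegral_algebraMap_iff (algebraMap ℚ K).injective).1 ha
  obtain ⟨z, hz⟩ := IsIntegrallyClosed.isIntegral_iff.1 h2
  refine ⟨z, ?_⟩
  rw [← hq, ← hz]
  simp

/-- a Frobenius automorphism -/
theorem exists_frob (K : Type) [Field K] [NumberField K] [IsGalois ℚ K] {p : ℕ} (hp : p.Prime) :
    ∃ (Q : Ideal (𝓞 K)) (φ : K ≃ₐ[ℚ] K), Q.IsMaximal ∧ (∀ z : ℤ, (z : 𝓞 K) ∈ Q ↔ (p : ℤ) ∣ z) ∧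
      ∀ a b : 𝓞 K, algebraMap (𝓞 K) K b = φ (algebraMap (𝓞 K) K a) → b - a ^ p ∈ Q := by
  have hpp : Prime (p : ℤ) := Nat.prime_iff_prime_int.1 hp
  haveI hmax : (Ideal.span {(p : ℤ)}).IsMaximal :=
    PrincipalIdealRing.isMaximal_of_irreducible hpp.irreducible
  obtain ⟨Q, hQ, hQp⟩ := Ideal.exists_ideal_over_maximal_of_isIntegral (S := 𝓞 K)
    (Ideal.span {(p : ℤ)}) (by
      rw [(RingHom.injective_iff_ker_eq_bot _).1 (FaithfulSMul.algebraMap_injective ℤ (𝓞 K))]
      exact bot_le)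
  have hmem : ∀ z : ℤ, (z : 𝓞 K) ∈ Q ↔ (p : ℤ) ∣ z := by
    intro z
    rw [← Ideal.mem_span_singleton, ← hQp, Ideal.mem_comap]
    simp
  have hQ0 : Q ≠ ⊥ := by
    intro h
    have h1 := (hmem (p : ℤ)).2 dvd_rfl
    rw [h, Ideal.mem_bot] at h1
    have h2 : (p : ℤ) = 0 := by exact_mod_cast h1
    exact hpp.ne_zero h2
  haveI : Finite (𝓞 K ⧸ Q) := Ideal.finiteQuotientOfFreeOfNeBot Q hQ0
  haveI := hQ.isPrime
  obtain ⟨σ, hσ⟩ := IsArithFrobAt.exists_of_isInvariant ℤ (K ≃ₐ[ℚ] K) Q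
  have hcard : Nat.card (ℤ ⧸ Q.under ℤ) = p := by
    have h1 : Q.under ℤ = Ideal.span {(p : ℤ)} := hQp
    rw [h1, Nat.card_congr (Int.quotientSpanNatEquivZMod p).toEquiv, Nat.card_zmod]
  refine ⟨Q, σ, hQ, hmem, fun a b hab => ?_⟩
  have h1 := hσ a
  rw [hcard] at h1
  have h2 : (MulSemiringAction.toAlgHom ℤ (𝓞 K) σ) a = b := by
    apply FaithfulSMul.algebraMap_injective (𝓞 K) K
    rw [hab]
    rfl
  rw [h2] at h1
  exact h1

section

variable {K : Type} [Field K] [NumberField K] {n : ℕ} {P : ℤ[X]} {x : Fin n → K}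

theorem monic_of (hP : P.map (algebraMap ℤ K) = ∏ i, (X - C (x i))) : P.Monic := by
  have h1 : (P.map (algebraMap ℤ K)).Monic := by
    rw [hP]
    exact monic_prod_X_sub_C _ _
  exact monic_of_injective (FaithfulSMul.algebraMap_injective ℤ K) h1

theorem aeval_x (hP : P.map (algebraMap ℤ K) = ∏ i, (X - C (x i))) (i : Fin n) :
    aeval (x i) P = 0 := by
  rw [← eval_map_algebraMap, hP, eval_prod]
  exact Finset.prod_eq_zero (Finset.mem_univ i) (by simp)

theorem integral_x (hP : P.map (algebraMap ℤ K) = ∏ i, (X - C (x i))) (i : Fin n) :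
    IsIntegral ℤ (x i) := ⟨P, monic_of hP, aeval_x hP i⟩

theorem exists_of_root (hP : P.map (algebraMap ℤ K) = ∏ i, (X - C (x i))) {y : K}
    (hy : aeval y P = 0) : ∃ i, y = x i := by
  rw [← eval_map_algebraMap, hP, eval_prod, Finset.prod_eq_zero_iff] at hy
  obtain ⟨i, _, hi⟩ := hy
  refine ⟨i, ?_⟩
  rw [eval_sub, eval_X, eval_C, sub_eq_zero] at hi
  exact hi

theorem norm_x (hP : P.map (algebraMap ℤ K) = ∏ i, (X - C (x i))) {H : ℝ} (hH : RootsLE P H)
    (ι : K →+* ℂ) (i : Fin n) : ‖ι (x i)‖ ≤ H := by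
  apply hH
  have h1 := aeval_algHom_apply ι.toIntAlgHom (x i) P
  rw [aeval_x hP i, map_zero] at h1
  exact h1

theorem exists_perm (hinj : Function.Injective x)
    (hP : P.map (algebraMap ℤ K) = ∏ i, (X - C (x i))) (γ : K ≃ₐ[ℚ] K) :
    ∃ π : Equiv.Perm (Fin n), ∀ i, γ (x i) = x (π i) := by
  have h1 : ∀ i, ∃ j, γ (x i) = x j := by
    intro i
    apply exists_of_root hP
    have h1 := aeval_algHom_apply (γ : K →+* K).toIntAlgHom (x i) P
    rw [aeval_x hP i, map_zero] at h1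
    exact h1
  choose f hf using h1
  have hfi : Function.Injective f := by
    intro i j hij
    apply hinj
    apply γ.injective
    rw [hf, hf, hij]
  exact ⟨Equiv.ofBijective f (Finite.injective_iff_bijective.1 hfi), hf⟩

/-- the product of the differences -/
noncomputable def dd (x : Fin n → K) : K := ∏ i, ∏ j, if i = j then 1 else x i - x j

theorem dd_ne_zero (hinj : Function.Injective x) : dd x ≠ 0 := by
  unfold dd
  rw [Finset.prod_ne_zero_iff]
  intro i _
  rw [Finset.prod_ne_zero_iff]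
  intro j _
  split_ifs with h
  · exact one_ne_zero
  · exact sub_ne_zero.2 fun h' => h (hinj h')

theorem dd_inv (γ : K ≃ₐ[ℚ] K) {π : Equiv.Perm (Fin n)} (h : ∀ i, γ (x i) = x (π i)) :
    γ (dd x) = dd x := by
  unfold dd
  rw [map_prod]
  rw [← Equiv.prod_comp π (fun i => ∏ j, if i = j then (1 : K) else x i - x j)]
  refine Finset.prod_congr rfl fun i _ => ?_
  rw [map_prod, ← Equiv.prod_comp π (fun j => if π i = j then (1 : K) else x (π i) - x j)]
  refine Finset.prod_congr rfl fun j _ => ?_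
  by_cases hij : i = j
  · rw [if_pos hij, if_pos (congrArg π hij), map_one]
  · rw [if_neg hij, if_neg (fun h' => hij (π.injective h')), map_sub, h, h]

theorem dd_int (h : ∀ i, IsIntegral ℤ (x i)) : IsIntegral ℤ (dd x) := by
  unfold dd
  refine IsIntegral.prod _ fun i _ => IsIntegral.prod _ fun j _ => ?_
  split_ifs
  · exact isIntegral_one
  · exact (h i).sub (h j)

theorem dd_norm {H : ℝ} (hH : 2 ≤ H) (ι : K →+* ℂ) (h : ∀ i, ‖ι (x i)‖ ≤ H) :
    ‖ι (dd x)‖ ≤ (2 * H) ^ (n ^ 2) := by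
  unfold dd
  rw [map_prod, norm_prod]
  have h1 : ∀ i j : Fin n, ‖ι (if i = j then 1 else x i - x j)‖ ≤ 2 * H := by
    intro i j
    split_ifs
    · rw [map_one, norm_one]
      linarith
    · rw [map_sub]
      refine (norm_sub_le _ _).trans ?_
      linarith [h i, h j]
  calc ∏ i, ‖ι (∏ j, if i = j then 1 else x i - x j)‖ ≤ ∏ i : Fin n, (2 * H) ^ n := by
        refine Finset.prod_le_prod (fun _ _ => norm_nonneg _) fun i _ => ?_
        rw [map_prod, norm_prod]
        calc ∏ j, ‖ι (if i = j then 1 else x i - x j)‖ ≤ ∏ j : Fin n, 2 * H :=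
              Finset.prod_le_prod (fun _ _ => norm_nonneg _) fun j _ => h1 i j
          _ = (2 * H) ^ n := by simp
    _ = (2 * H) ^ (n ^ 2) := by
        rw [Finset.prod_const, Finset.card_univ, Fintype.card_fin, ← pow_mul, pow_two]

/-- the roots are different modulo large primes -/
theorem dist_mod [IsGalois ℚ K] (hinj : Function.Injective x)
    (hP : P.map (algebraMap ℤ K) = ∏ i, (X - C (x i))) {H : ℝ} (hH : 2 ≤ H) (hR : RootsLE P H)
    {p : ℕ} (hbig : (2 * H) ^ (n ^ 2) < p) {Q : Ideal (𝓞 K)}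
    (hmem : ∀ z : ℤ, (z : 𝓞 K) ∈ Q ↔ (p : ℤ) ∣ z) {y : Fin n → 𝓞 K}
    (hy : ∀ i, algebraMap (𝓞 K) K (y i) = x i)
    {i j : Fin n} (hij : y i - y j ∈ Q) : i = j := by
  by_contra hne
  obtain ⟨z, hz⟩ := int_of_inv (dd_int fun i => integral_x hP i) (fun γ => by
    obtain ⟨π, hπ⟩ := exists_perm hinj hP γ
    exact dd_inv γ hπ)
  obtain ⟨ι⟩ : Nonempty (K →+* ℂ) := inferInstance
  have h1 := dd_norm hH ι (norm_x hP hR ι)
  rw [← hz, map_intCast, Complex.norm_intCast] at h1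
  have hz0 : z ≠ 0 := by
    rintro rfl
    rw [Int.cast_zero] at hz
    exact dd_ne_zero hinj hz.symm
  have hzQ : (z : 𝓞 K) ∈ Q := by
    have h2 : (z : 𝓞 K) = ∏ i, ∏ j, if i = j then 1 else y i - y j := by
      apply FaithfulSMul.algebraMap_injective (𝓞 K) K
      have h3 : algebraMap (𝓞 K) K (∏ i, ∏ j, if i = j then 1 else y i - y j) = dd x := by
        unfold dd
        rw [map_prod]
        refine Finset.prod_congr rfl fun i _ => ?_
        rw [map_prod]
        refine Finset.prod_congr rfl fun j _ => ?_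
        split_ifs
        · exact map_one _
        · rw [map_sub, hy, hy]
      rw [h3, ← hz]
      simp
    rw [h2]
    refine Ideal.mem_of_dvd Q (Finset.dvd_prod_of_mem _ (Finset.mem_univ i)) ?_
    refine Ideal.mem_of_dvd Q (Finset.dvd_prod_of_mem _ (Finset.mem_univ j)) ?_
    rw [if_neg hne]
    exact hij
  have h4 := Int.eq_zero_of_abs_lt_dvd ((hmem z).1 hzQ) (by
    have h5 : ((|z| : ℤ) : ℝ) < ((p : ℤ) : ℝ) := by
      rw [Int.cast_abs]
      exact lt_of_le_of_lt h1 (by exact_mod_cast hbig)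
    exact_mod_cast h5)
  exact hz0 h4

end

/-- the elements of the prime field -/
theorem exists_nat {k : Type} [Field k] {p : ℕ} (hp : p.Prime) [CharP k p] {a : k}
    (ha : a ^ p = a) : ∃ r < p, (r : k) = a := by
  classical
  haveI : Fact p.Prime := ⟨hp⟩
  have h0 : (X ^ p - X : k[X]) ≠ 0 := FiniteField.X_pow_card_sub_X_ne_zero k hp.one_lt
  have h1 : (Finset.range p).image (fun r : ℕ => (r : k)) ⊆ (X ^ p - X : k[X]).roots.toFinset := by
    intro b hb
    obtain ⟨r, _, rfl⟩ := Finset.mem_image.1 hb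
    rw [Multiset.mem_toFinset, mem_roots h0, IsRoot.def, eval_sub, eval_pow, eval_X, sub_eq_zero]
    rw [← map_natCast (ZMod.castHom (dvd_refl p) k) r, ← map_pow, ZMod.pow_card]
  have h2 : ((Finset.range p).image (fun r : ℕ => (r : k))).card = p := by
    rw [Finset.card_image_of_injOn, Finset.card_range]
    intro r hr s hs hrs
    rw [Finset.coe_range, Set.mem_Iio] at hr hs
    have h3 : (r : k) = (s : k) := hrs
    exact Nat.ModEq.eq_of_lt_of_lt ((CharP.natCast_eq_natCast k p).1 h3) hr hs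
  have h3 : (X ^ p - X : k[X]).roots.toFinset.card ≤ p := by
    refine (Multiset.toFinset_card_le _).trans ((card_roots' _).trans ?_)
    rw [FiniteField.X_pow_card_sub_X_natDegree_eq k hp.one_lt]
  have h4 := Finset.eq_of_subset_of_card_le h1 (by rw [h2]; exact h3)
  have h5 : a ∈ (X ^ p - X : k[X]).roots.toFinset := by
    rw [Multiset.mem_toFinset, mem_roots h0, IsRoot.def, eval_sub, eval_pow, eval_X, sub_eq_zero]
    exact ha
  rw [← h4] at h5
  obtain ⟨r, hr, hra⟩ := Finset.mem_image.1 h5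
  exact ⟨r, Finset.mem_range.1 hr, hra⟩

theorem main : S_FROB := by
  classical
  intro K _ _ _ p hp
  obtain ⟨Q, φ, hQ, hmem, hφ⟩ := exists_frob K hp
  refine ⟨φ, ?_⟩
  intro n P x H hinj hP hH hR hbig
  haveI := hQ.isPrime
  letI : Field (𝓞 K ⧸ Q) := Ideal.Quotient.field Q
  haveI : CharP (𝓞 K ⧸ Q) p := by
    refine ⟨fun m => ?_⟩
    have h1 : ((m : ℕ) : 𝓞 K ⧸ Q) = Ideal.Quotient.mk Q ((m : ℤ) : 𝓞 K) := by simp
    rw [h1, Ideal.Quotient.eq_zero_iff_mem, hmem]
    exact Int.natCast_dvd_natCast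
  let y : Fin n → 𝓞 K := fun i => ⟨x i, integral_x hP i⟩
  have hy : ∀ i, algebraMap (𝓞 K) K (y i) = x i := fun i => rfl
  have hdist : ∀ i j, y i - y j ∈ Q → i = j := fun i j h => dist_mod hinj hP hH hR hbig hmem hy h
  have hPO : ∀ r : ℤ, ((P.eval r : ℤ) : 𝓞 K) = ∏ i, ((r : 𝓞 K) - y i) := by
    intro r
    apply FaithfulSMul.algebraMap_injective (𝓞 K) K
    rw [map_prod]
    have h1 := congrArg (eval (r : K)) hP
    rw [eval_prod] at h1
    have h2 : eval (r : K) (P.map (algebraMap ℤ K)) = ((P.eval r : ℤ) : K) := by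
      have h3 : (r : K) = algebraMap ℤ K r := by simp
      rw [h3, eval_map_algebraMap, aeval_algebraMap_apply]
      simp
    rw [h2] at h1
    have h4 : algebraMap (𝓞 K) K ((P.eval r : ℤ) : 𝓞 K) = ((P.eval r : ℤ) : K) := by simp
    rw [h4, h1]
    refine Finset.prod_congr rfl fun i _ => ?_
    rw [eval_sub, eval_X, eval_C, map_sub, hy]
    simp
  have hstep : ∀ (r : ℕ) (i : Fin n), ((r : ℤ) : 𝓞 K) - y i ∈ Q → φ (x i) = x i := by
    intro r i hri
    obtain ⟨π, hπ⟩ := exists_perm hinj hP φ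
    have h1 := hφ (y i) (y (π i)) (by rw [hy, hy, hπ])
    have h2 : π i = i := by
      apply hdist
      rw [← Ideal.Quotient.eq] at h1 hri ⊢
      rw [h1, map_pow, ← hri]
      have h3 : (Ideal.Quotient.mk Q) ((r : ℤ) : 𝓞 K) = (r : 𝓞 K ⧸ Q) := by simp
      rw [h3]
      haveI : Fact p.Prime := ⟨hp⟩
      rw [← map_natCast (ZMod.castHom (dvd_refl p) (𝓞 K ⧸ Q)) r, ← map_pow, ZMod.pow_card]
    rw [hπ, h2]
  have hex : ∀ i : Fin n, φ (x i) = x i → ∃ r < p, ((r : ℤ) : 𝓞 K) - y i ∈ Q := by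
    intro i hi
    have h1 := hφ (y i) (y i) (by rw [hy, hi])
    rw [← Ideal.Quotient.eq, map_pow] at h1
    obtain ⟨r, hr, hra⟩ := exists_nat hp h1.symm
    refine ⟨r, hr, ?_⟩
    rw [← Ideal.Quotient.eq, ← hra]
    simp
  rw [Nat.card_eq_fintype_card, Fintype.card_subtype]
  unfold rho
  symm
  refine Finset.card_bij (fun i hi => (hex i (Finset.mem_filter.1 hi).2).choose) ?_ ?_ ?_
  · intro i hi
    obtain ⟨h1, h2⟩ := (hex i (Finset.mem_filter.1 hi).2).choose_spec
    rw [Finset.mem_filter, Finset.mem_range]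
    refine ⟨h1, ?_⟩
    rw [← hmem, hPO]
    exact Ideal.mem_of_dvd Q (Finset.dvd_prod_of_mem _ (Finset.mem_univ i)) h2
  · intro i hi j hj hij
    obtain ⟨h1, h2⟩ := (hex i (Finset.mem_filter.1 hi).2).choose_spec
    obtain ⟨h3, h4⟩ := (hex j (Finset.mem_filter.1 hj).2).choose_spec
    rw [← hij] at h4
    apply hdist
    have h5 := Q.sub_mem h4 h2
    rw [sub_sub_sub_cancel_left] at h5
    exact h5
  · intro r hr
    rw [Finset.mem_filter, Finset.mem_range] at hr
    obtain ⟨hr1, hr2⟩ := hr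
    rw [← hmem, hPO, Ideal.IsPrime.prod_mem_iff] at hr2
    obtain ⟨i, _, hi⟩ := hr2
    have hφi := hstep r i hi
    refine ⟨i, Finset.mem_filter.2 ⟨Finset.mem_univ i, hφi⟩, ?_⟩
    obtain ⟨h1, h2⟩ := (hex i hφi).choose_spec
    have h3 := Q.sub_mem h2 hi
    rw [sub_sub_sub_cancel_right, ← Int.cast_sub, hmem] at h3
    have h4 := Int.eq_zero_of_abs_lt_dvd h3 (by
      rw [abs_lt]
      constructor <;> omega)
    omega

end Pool.Agent.Helper10.EP.FROB
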