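import Pool.Agent.Helper10.EP.FROB

/-!
# EP: part PAIR (helper10)
-/

set_option autoImplicit false
set_option linter.all false

open Polynomial NumberField

namespace Pool.Agent.Helper10.EP.PAIR

open Pool.Agent.Helper20.EP Pool.Agent.Helper10.EP.FROB

/-- natural numbers which avoid finitely many bad sets -/
theorem avoid {ι : Type} [Fintype ι] (bad : ι → ℕ → Prop) (c N : ℕ)
    (h : ∀ a, ∀ A : Finset ℕ, (∀ n ∈ A, bad a n) → A.card ≤ c) (hN : Fintype.card ι * c < N) :
    ∃ n < N, ∀ a, ¬ bad a n := by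
  classical
  by_contra hcon
  push Not at hcon
  have h1 : Finset.range N ⊆ Finset.univ.biUnion fun a : ι => (Finset.range N).filter (bad a) := by
    intro n hn
    obtain ⟨a, ha⟩ := hcon n (Finset.mem_range.1 hn)
    exact Finset.mem_biUnion.2 ⟨a, Finset.mem_univ a, Finset.mem_filter.2 ⟨hn, ha⟩⟩
  have h2 := (Finset.card_le_card h1).trans Finset.card_biUnion_le
  rw [Finset.card_range] at h2
  have h3 : ∑ a : ι, ((Finset.range N).filter (bad a)).card ≤ ∑ _a : ι, c :=
    Finset.sum_le_sum fun a _ => h a _ fun n hn => (Finset.mem_filter.1 hn).2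
  rw [Finset.sum_const, Finset.card_univ, smul_eq_mul] at h3
  omega

section

variable {K : Type} [Field K] [NumberField K] {d : ℕ}

/-- the element of the resolvent attached to a bijection -/
noncomputable def Z (x x' : Fin d → K) (u v : ℕ) (σ : Equiv.Perm (Fin d)) : K :=
  ∏ i, ((u : K) - x i - v * x' (σ i))

theorem Z_act {x x' : Fin d → K} (u v : ℕ) (γ : K ≃ₐ[ℚ] K) {π π' : Equiv.Perm (Fin d)}
    (h : ∀ i, γ (x i) = x (π i)) (h' : ∀ i, γ (x' i) = x' (π' i)) (σ : Equiv.Perm (Fin d)) :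
    γ (Z x x' u v σ) = Z x x' u v (π' * σ * π⁻¹) := by
  unfold Z
  rw [map_prod]
  conv_rhs => rw [← Equiv.prod_comp π]
  refine Finset.prod_congr rfl fun i _ => ?_
  rw [map_sub, map_sub, map_mul, map_natCast, map_natCast, h, h']
  simp

theorem Z_int {x x' : Fin d → K} (u v : ℕ) (h : ∀ i, IsIntegral ℤ (x i))
    (h' : ∀ i, IsIntegral ℤ (x' i)) (σ : Equiv.Perm (Fin d)) : IsIntegral ℤ (Z x x' u v σ) := by
  unfold Z
  refine IsIntegral.prod _ fun i _ => ?_
  have hn : ∀ n : ℕ, IsIntegral ℤ (n : K) := fun n => by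
    have := isIntegral_algebraMap (R := ℤ) (A := K) (x := (n : ℤ))
    simpa using this
  exact ((hn u).sub (h i)).sub ((hn v).mul (h' _))

/-- separation of the bijections -/
theorem separate {x x' : Fin d → K} (hx : Function.Injective x) (hx' : Function.Injective x') :
    ∃ u v : ℕ, u ≤ d ^ 4 + (d.factorial) ^ 2 * d ∧ v ≤ d ^ 4 + (d.factorial) ^ 2 * d ∧
      Function.Injective (Z x x' u v) := by
  classical
  obtain ⟨v, hv, hv2⟩ := avoid (ι := (Fin d × Fin d) × (Fin d × Fin d))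
    (fun a n => a.1.2 ≠ a.2.2 ∧ x a.1.1 + n * x' a.1.2 = x a.2.1 + n * x' a.2.2) 1 (d ^ 4 + 1)
    (by
      rintro ⟨⟨i, j⟩, ⟨k, l⟩⟩ A hA
      rw [Finset.card_le_one]
      intro n hn m hm
      obtain ⟨h1, h2⟩ := hA n hn
      obtain ⟨_, h3⟩ := hA m hm
      simp only at h1 h2 h3
      have h4 : ((n : K) - m) * (x' j - x' l) = 0 := by linear_combination h2 - h3
      rcases mul_eq_zero.1 h4 with h5 | h5
      · have h6 : (n : K) = m := sub_eq_zero.1 h5
        exact_mod_cast h6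
      · exact absurd (hx' (sub_eq_zero.1 h5)) h1)
    (by
      simp only [Fintype.card_prod, Fintype.card_fin]
      have : d * d * (d * d) * 1 = d ^ 4 := by ring
      omega)
  have hsep : ∀ i j k l, x i + v * x' j = x k + v * x' l → i = k ∧ j = l := by
    intro i j k l h
    have h1 : j = l := by
      by_contra hne
      exact hv2 ⟨⟨i, j⟩, ⟨k, l⟩⟩ ⟨hne, h⟩
    subst h1
    exact ⟨hx (by linear_combination h), rfl⟩
  let F : Equiv.Perm (Fin d) → K[X] := fun σ => ∏ i, (X - C (x i + v * x' (σ i)))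
  have hF : ∀ σ τ, σ ≠ τ → F σ ≠ F τ := by
    intro σ τ hne he
    obtain ⟨i, hi⟩ : ∃ i, σ i ≠ τ i := by
      by_contra hcon
      push Not at hcon
      exact hne (Equiv.ext hcon)
    have h1 : (F τ).eval (x i + v * x' (σ i)) = 0 := by
      rw [← he, eval_prod]
      exact Finset.prod_eq_zero (Finset.mem_univ i) (by simp)
    rw [eval_prod, Finset.prod_eq_zero_iff] at h1
    obtain ⟨k, _, hk⟩ := h1
    rw [eval_sub, eval_X, eval_C, sub_eq_zero] at hk
    obtain ⟨rfl, h2⟩ := hsep _ _ _ _ hk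
    exact hi h2
  have hFZ : ∀ (n : ℕ) σ, (F σ).eval (n : K) = Z x x' n v σ := by
    intro n σ
    unfold Z
    rw [eval_prod]
    refine Finset.prod_congr rfl fun i _ => ?_
    rw [eval_sub, eval_X, eval_C]
    ring
  obtain ⟨u, hu, hu2⟩ := avoid (ι := Equiv.Perm (Fin d) × Equiv.Perm (Fin d))
    (fun a n => a.1 ≠ a.2 ∧ Z x x' n v a.1 = Z x x' n v a.2) d ((d.factorial) ^ 2 * d + 1)
    (by
      rintro ⟨σ, τ⟩ A hA
      by_cases hne : σ = τ
      · have : A = ∅ := by
          rw [Finset.eq_empty_iff_forall_notMem]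
          intro n hn
          exact (hA n hn).1 hne
        rw [this]
        simp
      · have h0 : F σ - F τ ≠ 0 := sub_ne_zero.2 (hF σ τ hne)
        have h1 : A.image (fun n : ℕ => (n : K)) ⊆ (F σ - F τ).roots.toFinset := by
          intro b hb
          obtain ⟨n, hn, rfl⟩ := Finset.mem_image.1 hb
          rw [Multiset.mem_toFinset, mem_roots h0, IsRoot.def, eval_sub, hFZ, hFZ, sub_eq_zero]
          exact (hA n hn).2
        have h2 : (A.image (fun n : ℕ => (n : K))).card = A.card :=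
          Finset.card_image_of_injective _ Nat.cast_injective
        rw [← h2]
        refine (Finset.card_le_card h1).trans ((Multiset.toFinset_card_le _).trans
          ((card_roots' _).trans ?_))
        refine (natDegree_sub_le _ _).trans ?_
        have h3 : ∀ σ, (F σ).natDegree = d := by
          intro σ
          show (∏ i, (X - C (x i + v * x' (σ i)))).natDegree = d
          rw [natDegree_finsetProd_X_sub_C_eq_card, Finset.card_univ, Fintype.card_fin]
        rw [h3, h3, max_self])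
    (by
      rw [Fintype.card_prod, Fintype.card_perm, Fintype.card_fin, pow_two]
      omega)
  refine ⟨u, v, by omega, by omega, ?_⟩
  intro σ τ h
  by_contra hne
  exact hu2 ⟨σ, τ⟩ ⟨hne, h⟩

theorem Z_norm {x x' : Fin d → K} {u v B : ℕ} (hu : u ≤ B) (hv : v ≤ B) {H : ℝ} (hH : 2 ≤ H)
    (hB : 1 ≤ B) (ι : K →+* ℂ) (h : ∀ i, ‖ι (x i)‖ ≤ H) (h' : ∀ i, ‖ι (x' i)‖ ≤ H)
    (σ : Equiv.Perm (Fin d)) : ‖ι (Z x x' u v σ)‖ ≤ (3 * B * H) ^ d := by
  unfold Z
  rw [map_prod, norm_prod]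
  have hB' : (1 : ℝ) ≤ B := by exact_mod_cast hB
  have hu' : (u : ℝ) ≤ B := by exact_mod_cast hu
  have hv' : (v : ℝ) ≤ B := by exact_mod_cast hv
  calc ∏ i, ‖ι ((u : K) - x i - v * x' (σ i))‖ ≤ ∏ _i : Fin d, (3 * B * H) := by
        refine Finset.prod_le_prod (fun _ _ => norm_nonneg _) fun i _ => ?_
        rw [map_sub, map_sub, map_mul, map_natCast, map_natCast]
        refine (norm_sub_le _ _).trans ?_
        have h1 := norm_sub_le (u : ℂ) (ι (x i))
        rw [Complex.norm_natCast] at h1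
        rw [norm_mul, Complex.norm_natCast]
        have h2 : (v : ℝ) * ‖ι (x' (σ i))‖ ≤ B * H :=
          mul_le_mul hv' (h' _) (norm_nonneg _) (by positivity)
        have h3 := h i
        nlinarith
    _ = (3 * B * H) ^ d := by simp

end

/-- the resolvent polynomial -/
theorem resolvent {K : Type} [Field K] [NumberField K] [IsGalois ℚ K] {n : ℕ} {z : Fin n → K}
    (hz : Function.Injective z) (hint : ∀ i, IsIntegral ℤ (z i))
    (hperm : ∀ (γ : K ≃ₐ[ℚ] K) (i : Fin n), ∃ j, γ (z i) = z j)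
    (htr : ∀ i j : Fin n, ∃ γ : K ≃ₐ[ℚ] K, γ (z i) = z j) (hn : 0 < n) :
    ∃ G : ℤ[X], G.Monic ∧ Irreducible G ∧ G.natDegree = n ∧
      G.map (algebraMap ℤ K) = ∏ i, (X - C (z i)) := by
  classical
  obtain ⟨GK, hGK⟩ : ∃ GK : K[X], GK = ∏ i, (X - C (z i)) := ⟨_, rfl⟩
  have hinv : ∀ (γ : K ≃ₐ[ℚ] K) (m : ℕ), γ (GK.coeff m) = GK.coeff m := by
    intro γ m
    choose f hf using hperm γ
    have hfi : Function.Injective f := by
      intro i j hij
      apply hz
      apply γ.injective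
      rw [hf, hf, hij]
    let e := Equiv.ofBijective f (Finite.injective_iff_bijective.1 hfi)
    have h1 : GK.map (γ : K →+* K) = GK := by
      rw [hGK, Polynomial.map_prod, ← Equiv.prod_comp e (fun i => X - C (z i))]
      refine Finset.prod_congr rfl fun i _ => ?_
      rw [Polynomial.map_sub, Polynomial.map_X, Polynomial.map_C]
      congr 2
      exact hf i
    conv_rhs => rw [← h1, coeff_map]
    rfl
  have hco : ∀ m, IsIntegral ℤ (GK.coeff m) := by
    intro m
    let zO : Fin n → 𝓞 K := fun i => ⟨z i, hint i⟩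
    have h1 : GK = (∏ i, (X - C (zO i))).map (algebraMap (𝓞 K) K) := by
      rw [hGK, Polynomial.map_prod]
      refine Finset.prod_congr rfl fun i _ => ?_
      rw [Polynomial.map_sub, Polynomial.map_X, Polynomial.map_C]
      rfl
    rw [h1, coeff_map]
    exact RingOfIntegers.isIntegral_coe _
  have hlift : GK ∈ lifts (algebraMap ℤ K) := by
    rw [lifts_iff_coeff_lifts]
    intro m
    obtain ⟨w, hw⟩ := int_of_inv (hco m) (fun γ => hinv γ m)
    exact ⟨w, by rw [← hw]; simp⟩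
  obtain ⟨G, hG⟩ := (mem_lifts _).1 hlift
  have hG' : G.map (algebraMap ℤ K) = ∏ i, (X - C (z i)) := by rw [hG, hGK]
  have hmon : G.Monic := monic_of hG'
  have hdeg : G.natDegree = n := by
    rw [← natDegree_map_eq_of_injective (FaithfulSMul.algebraMap_injective ℤ K) G, hG',
      natDegree_finsetProd_X_sub_C_eq_card, Finset.card_univ, Fintype.card_fin]
  refine ⟨G, hmon, ?_, hdeg, hG'⟩
  obtain ⟨i0⟩ : Nonempty (Fin n) := ⟨⟨0, hn⟩⟩
  have hmd : minpoly ℤ (z i0) ∣ G := minpoly.isIntegrallyClosed_dvd (hint i0) (aeval_x hG' i0)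
  have hmm : (minpoly ℤ (z i0)).Monic := minpoly.monic (hint i0)
  have hmK : (minpoly ℤ (z i0)).map (algebraMap ℤ K) ≠ 0 := (hmm.map _).ne_zero
  have h1 : Finset.univ.image z ⊆ ((minpoly ℤ (z i0)).map (algebraMap ℤ K)).roots.toFinset := by
    intro b hb
    obtain ⟨j, _, rfl⟩ := Finset.mem_image.1 hb
    obtain ⟨γ, hγ⟩ := htr i0 j
    rw [Multiset.mem_toFinset, mem_roots hmK, IsRoot.def, eval_map_algebraMap, ← hγ]
    have h2 := aeval_algHom_apply (γ : K →+* K).toIntAlgHom (z i0) (minpoly ℤ (z i0))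
    rw [minpoly.aeval, map_zero] at h2
    exact h2
  have h2 : n ≤ (minpoly ℤ (z i0)).natDegree := by
    calc n = (Finset.univ.image z).card := by
          rw [Finset.card_image_of_injective _ hz, Finset.card_univ, Fintype.card_fin]
      _ ≤ _ := (Finset.card_le_card h1).trans ((Multiset.toFinset_card_le _).trans
          ((card_roots' _).trans (natDegree_map_le)))
  have h3 : G = minpoly ℤ (z i0) :=
    eq_of_monic_of_dvd_of_natDegree_le hmm hmon hmd (by rw [hdeg]; exact h2)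
  rw [h3]
  exact minpoly.irreducible (hint i0)

theorem main : S_PAIR := by
  classical
  intro d hd
  obtain ⟨B0, hB0⟩ : ∃ B0 : ℕ, B0 = d ^ 4 + (d.factorial) ^ 2 * d := ⟨_, rfl⟩
  have hB01 : 1 ≤ B0 := by
    rw [hB0]
    have : 1 ≤ d ^ 4 := Nat.one_le_pow _ _ hd
    omega
  obtain ⟨a, ha⟩ : ∃ a : ℕ, 3 * B0 ≤ 2 ^ a := ⟨3 * B0, Nat.lt_two_pow_self.le⟩
  obtain ⟨B1, hB1⟩ : ∃ B1 : ℕ, B1 = (a + 1) * d := ⟨_, rfl⟩
  have hB11 : 1 ≤ B1 := by
    rw [hB1]
    exact Nat.mul_pos (by omega) hd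
  refine ⟨(B1 + 1) * (d.factorial) ^ 2, ?_⟩
  intro K _ _ _ P P' x x' H g g' Y hx hx' hP hP' hH hR hR' hg hg' ha1 hb1 hc1
  have hH1 : (1 : ℝ) ≤ H := by linarith
  obtain ⟨u, v, hu, hv, hZ⟩ := separate hx hx'
  rw [← hB0] at hu hv
  obtain ⟨n, hn⟩ : ∃ n, n = Nat.card Y := ⟨_, rfl⟩
  have hn0 : 0 < n := by rw [hn]; exact Nat.card_pos
  have hnd : n ≤ d.factorial := by
    rw [hn]
    refine (Nat.card_le_card_of_injective _ Subtype.val_injective).trans ?_
    rw [Nat.card_eq_fintype_card, Fintype.card_perm, Fintype.card_fin]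
  let e : Y ≃ Fin n := hn ▸ Finite.equivFin Y
  let z : Fin n → K := fun i => Z x x' u v (e.symm i : Equiv.Perm (Fin d))
  have hze : ∀ σ : Y, z (e σ) = Z x x' u v (σ : Equiv.Perm (Fin d)) := by
    intro σ
    show Z x x' u v (e.symm (e σ) : Equiv.Perm (Fin d)) = _
    rw [Equiv.symm_apply_apply]
  have hz : Function.Injective z := by
    intro i j hij
    exact e.symm.injective (Subtype.ext (hZ hij))
  have hintx := integral_x hP
  have hintx' := integral_x hP'
  have hact : ∀ (γ : K ≃ₐ[ℚ] K) (σ : Equiv.Perm (Fin d)),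
      γ (Z x x' u v σ) = Z x x' u v (g' γ * σ * (g γ)⁻¹) :=
    fun γ σ => Z_act u v γ (hg γ) (hg' γ) σ
  have hmemY : ∀ (γ : K ≃ₐ[ℚ] K), ∀ σ ∈ Y, g' γ * σ * (g γ)⁻¹ ∈ Y := by
    intro γ σ hσ
    have h1 := Y.mul_mem (ha1 γ) (hb1 γ σ hσ)
    have h2 : g' γ * (g γ)⁻¹ * (g γ * σ * (g γ)⁻¹) = g' γ * σ * (g γ)⁻¹ := by group
    rwa [h2] at h1
  have hperm : ∀ (γ : K ≃ₐ[ℚ] K) (i : Fin n), ∃ j, γ (z i) = z j := by
    intro γ i
    refine ⟨e ⟨_, hmemY γ _ (e.symm i).2⟩, ?_⟩
    rw [hze]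
    exact hact γ _
  have hone : ∀ j : Fin n, ∃ γ : K ≃ₐ[ℚ] K, γ (z (e 1)) = z j := by
    intro j
    obtain ⟨γ, hγ⟩ := hc1 _ (e.symm j).2
    refine ⟨γ, ?_⟩
    rw [hze, hact]
    show Z x x' u v (g' γ * 1 * (g γ)⁻¹) = Z x x' u v (e.symm j : Equiv.Perm (Fin d))
    rw [mul_one, ← hγ]
  have htr : ∀ i j : Fin n, ∃ γ : K ≃ₐ[ℚ] K, γ (z i) = z j := by
    intro i j
    obtain ⟨γ, hγ⟩ := hone i
    obtain ⟨δ, hδ⟩ := hone j
    refine ⟨δ * γ⁻¹, ?_⟩
    have h1 : γ⁻¹ (z i) = z (e 1) := by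
      rw [← hγ, ← AlgEquiv.mul_apply, inv_mul_cancel]
      rfl
    rw [AlgEquiv.mul_apply, h1, hδ]
  obtain ⟨G, hG1, hG2, hG3, hG4⟩ := resolvent hz (fun i => Z_int u v hintx hintx' _) hperm htr hn0
  have hRG : RootsLE G (H ^ B1) := by
    intro w hw
    obtain ⟨ι⟩ : Nonempty (K →+* ℂ) := inferInstance
    have h1 : G.map (algebraMap ℤ ℂ) = ∏ i, (X - C (ι (z i))) := by
      have h2 := congrArg (Polynomial.map ι) hG4
      rw [Polynomial.map_map, Polynomial.map_prod] at h2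
      have h3 : ι.comp (algebraMap ℤ K) = algebraMap ℤ ℂ := RingHom.ext_int _ _
      rw [h3] at h2
      rw [h2]
      refine Finset.prod_congr rfl fun i _ => ?_
      rw [Polynomial.map_sub, Polynomial.map_X, Polynomial.map_C]
    rw [← eval_map_algebraMap, h1, eval_prod, Finset.prod_eq_zero_iff] at hw
    obtain ⟨i, _, hi⟩ := hw
    rw [eval_sub, eval_X, eval_C, sub_eq_zero] at hi
    rw [hi]
    refine (Z_norm hu hv hH hB01 ι (norm_x hP hR ι) (norm_x hP' hR' ι) _).trans ?_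
    rw [hB1, pow_mul]
    refine pow_le_pow_left₀ (by positivity) ?_ d
    rw [pow_succ]
    refine mul_le_mul_of_nonneg_right ?_ (by positivity)
    calc (3 * B0 : ℝ) ≤ (2 : ℝ) ^ a := by exact_mod_cast ha
      _ ≤ H ^ a := pow_le_pow_left₀ (by norm_num) hH a
  have hB : B1 ≤ (B1 + 1) * (d.factorial) ^ 2 := by
    have : 1 ≤ (d.factorial) ^ 2 := Nat.one_le_pow _ _ (Nat.factorial_pos d)
    nlinarith
  refine ⟨G, hG1, hG2, by rw [hG3, hn], ?_, ?_⟩
  · intro w hw
    exact (hRG w hw).trans (pow_le_pow_right₀ hH1 hB)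
  · intro p φ hp hφ hbig
    have h1 := hφ n G z (H ^ B1) hz hG4 (by
      calc (2 : ℝ) ≤ H := hH
        _ = H ^ 1 := (pow_one H).symm
        _ ≤ H ^ B1 := pow_le_pow_right₀ hH1 hB11) hRG (by
      refine lt_of_le_of_lt ?_ hbig
      calc (2 * H ^ B1) ^ (n ^ 2) ≤ (H ^ (B1 + 1)) ^ (n ^ 2) := by
            refine pow_le_pow_left₀ (by positivity) ?_ _
            rw [pow_succ, mul_comm]
            exact mul_le_mul_of_nonneg_left hH (by positivity)
        _ ≤ (H ^ (B1 + 1)) ^ ((d.factorial) ^ 2) :=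
            pow_le_pow_right₀ (one_le_pow₀ hH1) (Nat.pow_le_pow_left hnd 2)
        _ = H ^ ((B1 + 1) * (d.factorial) ^ 2) := (pow_mul _ _ _).symm)
    rw [h1]
    refine Nat.card_congr (Equiv.subtypeEquiv e.symm fun i => ?_)
    show φ (Z x x' u v (e.symm i : Equiv.Perm (Fin d))) =
      Z x x' u v (e.symm i : Equiv.Perm (Fin d)) ↔ _
    rw [hact]
    constructor
    · intro h
      have h2 := hZ h
      rw [mul_inv_eq_iff_eq_mul] at h2
      exact h2
    · intro h
      rw [h, mul_inv_cancel_right]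

end Pool.Agent.Helper10.EP.PAIR
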